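import Mathlib
import Pool.Agent.N902.EW.Fi

set_option autoImplicit false

/-!
# `ζ(3)` and the damped integrals `1/2 * ∫ t² / (exp t - 1) * exp (-x (1 - exp (-t))) dt`

For an integer `k ≥ 2` and a complex number `x` let `S_k(x)` and `T_k(x)` be the Poisson means of
the partial sums and of the tails of `ζ(k)`,
`S_k(x) = exp (-x) * ∑_j x^j/j! * ∑_{n ≤ j} 1/n^k`, `T_k(x) = exp (-x) * ∑_j x^j/j! * ∑_{n > j} 1/n^k`.

For complex numbers `a_1, …, a_n` with `a_n ≠ 0` let `I(a_1, …, a_n)` be the iterated integral of the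
forms `ω_{a_1}(t_1), …, ω_{a_n}(t_n)` over `1 > t_1 > … > t_n > 0`, where `ω_0 = dt / t` and
`ω_a = (exp (a t) - 1) dt / t` for `a ≠ 0`. Let `𝓚` be the field which is generated by all algebraic
numbers, all numbers `exp b`, `b` algebraic, and all numbers `I(a_1, …, a_n)` with algebraic
`a_1, …, a_n`, no two nonzero ones of which have sum zero. (It contains, for example, the numbers
`∑_m a^m / (m^j m!)` for `a` algebraic and `j ≥ 1`, the values of the exponential integrals.)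

Let `X` be a set of algebraic numbers `x` such that `x + y ≠ 0` for all `x, y` in `X` (for example
the set of the positive algebraic numbers).

(1) `ζ(k) = S_k(x) + T_k(x)` and
`T_k(x) = 1/(k-1)! * ∫_0^∞ t^(k-1) / (exp t - 1) * exp (-x (1 - exp (-t))) dt`; for `x = 0` this is `ζ(k)`.

(2) The numbers `S_k(x)`, `k ≥ 2`, `x` in `X`, are algebraically independent over `𝓚`.

(3) At most one of the numbers `ζ(3)` and `T_3(x)`, `x` in `X`, is algebraic over `𝓚`. If `ζ(3)` is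
algebraic over `𝓚` then the numbers `T_3(x)`, `x` in `X`, are algebraically independent over `𝓚`.

(4) Let `y_1, …, y_r` be complex numbers and `Q` a set of integers `k ≥ 2` for which `ζ(k)` is algebraic
over `𝓚(y_1, …, y_r)`. At most `r` of the numbers `y_1, …, y_r` and `T_k(x)`, `k` in `Q`, `x` in `X`,
are algebraic over `𝓚`, and for all finite sets `A` of pairs `(k, x)`, `k` in `Q`, `x` in `X`, the
field `𝓚(y_1, …, y_r, T_k(x) : (k, x) ∈ A)` has transcendence degree at least `|A|` over `𝓚`.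
-/

namespace Pool.Agent.Results.MP_48b3e2_nt.DampedZetaIntegrals

open Set MeasureTheory

/-- `S_k(x)` -/
noncomputable def S (k : ℕ) (x : ℂ) : ℂ :=
  Complex.exp (-x) * ∑' j : ℕ, x ^ j / j.factorial * ∑ i ∈ Finset.range j, 1 / ((i : ℂ) + 1) ^ k

/-- `T_k(x)` -/
noncomputable def T (k : ℕ) (x : ℂ) : ℂ :=
  Complex.exp (-x) * ∑' j : ℕ, x ^ j / j.factorial * ∑' i : ℕ, 1 / ((i : ℂ) + j + 1) ^ k

/-- the iterated integral of `ω_{a_1}(t_1), …, ω_{a_n}(t_n)` over `t > t_1 > … > t_n > 0` -/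
noncomputable def iterated : List ℂ → ℝ → ℂ
  | [], _ => 1
  | a :: v, t => ∫ s in (0 : ℝ)..t, (if a = 0 then 1 else Complex.exp (a * s) - 1) * iterated v s / s

/-- `I(a_1, …, a_n)` -/
noncomputable def I (w : List ℂ) : ℂ := iterated w 1

/-- the entries are algebraic, the last one is not zero, no two nonzero entries have sum zero -/
def Admissible (w : List ℂ) : Prop :=
  (∀ a ∈ w, IsAlgebraic ℚ a) ∧ (∀ h : w ≠ [], w.getLast h ≠ 0) ∧ ∀ a ∈ w, a ≠ 0 → -a ∉ w

/-- the field `𝓚` -/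
noncomputable def baseField : IntermediateField ℚ ℂ := IntermediateField.adjoin ℚ
  ({z | IsAlgebraic ℚ z} ∪ {z | ∃ b : ℂ, IsAlgebraic ℚ b ∧ z = Complex.exp b} ∪
    {z | ∃ w : List ℂ, Admissible w ∧ z = I w})

/-- `z` is algebraic over `𝓚` -/
def AlgebraicOver (z : ℂ) : Prop := IsAlgebraic baseField z

/-- `z` is algebraic over `𝓚(y_1, …, y_r)` -/
def AlgebraicOverAnd {r : ℕ} (y : Fin r → ℂ) (z : ℂ) : Prop :=
  IsAlgebraic (IntermediateField.adjoin baseField (range y)) z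

/-- the names of those of the numbers `y_1, …, y_r` and `T_k(x)`, `k` in `Q`, `x` in `X`, which are
algebraic over `𝓚` -/
def algebraicNames {r : ℕ} (y : Fin r → ℂ) (Q : Set ℕ) (X : Set ℂ) : Set (Fin r ⊕ (ℕ × ℂ)) :=
  {n | Sum.elim (fun j => AlgebraicOver (y j)) (fun p => p.1 ∈ Q ∧ p.2 ∈ X ∧ AlgebraicOver (T p.1 p.2)) n}

/-- the names of those of the numbers `ζ(3)` and `T_3(x)`, `x` in `X`, which are algebraic over `𝓚` -/
def namesThree (X : Set ℂ) : Set (Option ℂ) :=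
  {o | o.elim (AlgebraicOver (riemannZeta 3)) fun x => x ∈ X ∧ AlgebraicOver (T 3 x)}

open Pool.Agent.N902.EW in
theorem iterated_eq (w : List ℂ) : ∀ t : ℝ, iterated w t = II w t := by
  induction w with
  | nil => intro t; rfl
  | cons a v ih =>
    intro t
    rw [iterated, II]
    refine intervalIntegral.integral_congr fun s _ => ?_
    show (if a = 0 then 1 else Complex.exp (a * s) - 1) * iterated v s / s = _
    rw [ih]

open Pool.Agent.N902.EW in
theorem baseField_eq : baseField = KK := by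
  rw [baseField, KK]
  congr 2
  ext z
  constructor
  · rintro ⟨w, hw, rfl⟩
    exact ⟨w, ⟨hw.1, hw.2.1⟩, hw.2.2, iterated_eq w 1⟩
  · rintro ⟨w, hw, hno, rfl⟩
    exact ⟨w, ⟨hw.1, hw.2, hno⟩, (iterated_eq w 1).symm⟩

theorem zeta_three : riemannZeta ((3 : ℕ) : ℂ) = riemannZeta 3 := by norm_num

theorem T_eq : T = Pool.Agent.N902.EW.PT := rfl

theorem S_eq : S = Pool.Agent.N902.EW.PS := rfl

theorem over_iff (z : ℂ) : AlgebraicOver z ↔ IsAlgebraic Pool.Agent.N902.EW.KK z := by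
  unfold AlgebraicOver
  rw [baseField_eq]

theorem overAnd_iff {r : ℕ} (y : Fin r → ℂ) (z : ℂ) :
    AlgebraicOverAnd y z ↔ IsAlgebraic (IntermediateField.adjoin Pool.Agent.N902.EW.KK (range y)) z := by
  unfold AlgebraicOverAnd
  rw [baseField_eq]

open Pool.Agent.N902.EW in
theorem names_le (X : Set ℂ) (hX : ∀ x ∈ X, IsAlgebraic ℚ x ∧ ∀ y ∈ X, x + y ≠ 0) {r : ℕ} (y : Fin r → ℂ) (Q : Set ℕ)
    (hQ : ∀ k ∈ Q, 2 ≤ k ∧ AlgebraicOverAnd y (riemannZeta k)) : (algebraicNames y Q X).encard ≤ (r : ℕ∞) := by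
  refine le_trans ?_ (count_zeta X hX y Q fun k hk => ⟨(hQ k hk).1, (overAnd_iff _ _).1 (hQ k hk).2⟩)
  let g : Fin r ⊕ {p : ℕ × ℂ // p.1 ∈ Q ∧ p.2 ∈ X} → Fin r ⊕ (ℕ × ℂ) := Sum.map id Subtype.val
  have hsub : algebraicNames y Q X ⊆ g '' {n : Fin r ⊕ {p : ℕ × ℂ // p.1 ∈ Q ∧ p.2 ∈ X} |
      Sum.elim (fun j => IsAlgebraic KK (y j)) (fun p => IsAlgebraic KK (PT p.1.1 p.1.2)) n} := by
    rintro (j | p) hn
    · have hn' : AlgebraicOver (y j) := hn
      rw [over_iff] at hn'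
      exact ⟨Sum.inl j, hn', rfl⟩
    · have hn' : p.1 ∈ Q ∧ p.2 ∈ X ∧ AlgebraicOver (T p.1 p.2) := hn
      rw [over_iff, T_eq] at hn'
      exact ⟨Sum.inr ⟨p, hn'.1, hn'.2.1⟩, hn'.2.2, rfl⟩
  exact (encard_le_encard hsub).trans (encard_image_le _ _)

open Pool.Agent.N902.EW in
theorem three_le (X : Set ℂ) (hX : ∀ x ∈ X, IsAlgebraic ℚ x ∧ ∀ y ∈ X, x + y ≠ 0) : (namesThree X).encard ≤ 1 := by
  have h := names_le X hX (fun _ : Fin 1 => riemannZeta 3) {3} (by
    rintro k rfl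
    refine ⟨by norm_num, ?_⟩
    rw [zeta_three]
    exact isAlgebraic_algebraMap (⟨riemannZeta 3, IntermediateField.subset_adjoin _ _ ⟨0, rfl⟩⟩ :
      IntermediateField.adjoin baseField (range fun _ : Fin 1 => riemannZeta 3)))
  let g : Option ℂ → Fin 1 ⊕ (ℕ × ℂ) := fun o => o.elim (Sum.inl 0) fun x => Sum.inr (3, x)
  have hg : Function.Injective g := by
    intro a b hab
    cases a <;> cases b <;> simp_all [g]
  have h2 : g '' namesThree X ⊆ algebraicNames (fun _ : Fin 1 => riemannZeta 3) {3} X := by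
    rintro _ ⟨o, ho, rfl⟩
    cases o with
    | none => exact ho
    | some x => exact ⟨rfl, ho.1, ho.2⟩
  calc (namesThree X).encard = (g '' namesThree X).encard := (hg.encard_image _).symm
    _ ≤ _ := encard_le_encard h2
    _ ≤ 1 := by exact_mod_cast h

open Pool.Agent.N902.EW in
theorem three_indep (X : Set ℂ) (hX : ∀ x ∈ X, IsAlgebraic ℚ x ∧ ∀ y ∈ X, x + y ≠ 0)
    (h : AlgebraicOver (riemannZeta 3)) : AlgebraicIndependent baseField (fun x : X => T 3 x) := by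
  rw [over_iff] at h
  rw [baseField_eq, T_eq]
  have h1 := ai_PT X hX {3} (by
    rintro k rfl
    rw [zeta_three]
    exact ⟨by norm_num, h⟩)
  exact h1.comp (fun x : X => (⟨(3, x.1), rfl, x.2⟩ : {p : ℕ × ℂ // p.1 ∈ ({3} : Set ℕ) ∧ p.2 ∈ X})) (by
    intro a b hab
    simp only [Subtype.mk.injEq, Prod.mk.injEq, true_and] at hab
    exact Subtype.ext hab)

theorem result :
    -- (1)
    (∀ k : ℕ, 2 ≤ k → ∀ x : ℂ, riemannZeta k = S k x + T k x ∧
      T k x = 1 / ((k - 1).factorial : ℂ) * ∫ t in Ioi (0 : ℝ),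
        ((t ^ (k - 1) / (Real.exp t - 1) : ℝ) : ℂ) * Complex.exp (-x * (1 - Complex.exp (-t)))) ∧
    ∀ X : Set ℂ, (∀ x ∈ X, IsAlgebraic ℚ x ∧ ∀ y ∈ X, x + y ≠ 0) →
      -- (2)
      AlgebraicIndependent baseField (fun p : {p : ℕ × ℂ // 2 ≤ p.1 ∧ p.2 ∈ X} => S p.1.1 p.1.2) ∧
      -- (3)
      (namesThree X).encard ≤ 1 ∧
      (AlgebraicOver (riemannZeta 3) → AlgebraicIndependent baseField (fun x : X => T 3 x)) ∧
      -- (4)
      ∀ (r : ℕ) (y : Fin r → ℂ) (Q : Set ℕ), (∀ k ∈ Q, 2 ≤ k ∧ AlgebraicOverAnd y (riemannZeta k)) →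
        (algebraicNames y Q X).encard ≤ (r : ℕ∞) ∧
        ∀ A : Finset (ℕ × ℂ), (∀ p ∈ A, p.1 ∈ Q ∧ p.2 ∈ X) →
          (A.card : Cardinal) ≤ Algebra.trdeg baseField (IntermediateField.adjoin baseField
            (range y ∪ (fun p : ℕ × ℂ => T p.1 p.2) '' (A : Set (ℕ × ℂ)))) := by
  refine ⟨fun k hk x => ⟨Pool.Agent.N902.EW.zeta_split hk x, ?_⟩, fun X hX => ⟨?_, three_le X hX, three_indep X hX,
    fun r y Q hQ => ⟨names_le X hX y Q hQ, fun A hA => ?_⟩⟩⟩
  · obtain ⟨m, rfl⟩ : ∃ m, k = m + 1 := ⟨k - 1, by omega⟩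
    exact Pool.Agent.N902.EW.PT_eq_integral (by omega) x
  · rw [baseField_eq, S_eq]
    exact Pool.Agent.N902.EW.ai_PS X hX
  · rw [baseField_eq, T_eq]
    exact Pool.Agent.N902.EW.trdeg_zeta X hX y Q (fun k hk => ⟨(hQ k hk).1, (overAnd_iff _ _).1 (hQ k hk).2⟩) A hA

end Pool.Agent.Results.MP_48b3e2_nt.DampedZetaIntegrals
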