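import Pool.Agent.N743.ZetaFam
import Pool.Agent.R352.Q.Three

/-!
# The scale dichotomy for `ζ(3)` and the incomplete integrals of `ζ(3)`

For rational `x > 0` let `R(x)` be `1/12` times the integral of `log (t_1 t_2 / t_3^2)^3 e^(-t_1 - t_2 - t_3)`
over the points of the positive octant with `max t_j ≥ x`; for `x = 0` this would be `ζ(3)`.

A number `u` is near at the scale `X` (with parameters `D`, `θ`) if
`|P(u)| ≤ 1 / X` for some nonzero integer polynomial `P` of degree at most `D` with coefficients at most `X ^ θ`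
(`AlgNear`), respectively (near over `ℚ(e)`) `|P(e, u)| ≤ 1 / X` for some nonzero integer polynomial `P` in two
variables of degree at most `D` in each variable with coefficients at most `X ^ θ` (`NearRel`).
We show, for any finite set of the numbers `ζ(3)`, `R(x)`, every `D`, every `M > 1` and all small `θ`:

* At every large scale at most one of the numbers is near.
* If one of the numbers is algebraic of degree at most `D` (over `ℚ(e)`: satisfies a relation of
  degree at most `D`), then it is near at all large scales and the other numbers are near at no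
  large scale.
* Otherwise every large scale `X` at which one of the numbers, `u` say, is near is followed by a
  scale `Z ≥ X` such that between `X` and `Z` no other of the numbers is near, and between `Z`
  and `Z ^ M` none of the numbers is near. In particular there are arbitrarily large `Z` such
  that none of the numbers is near at any scale `Y` with `Z < Y ≤ Z ^ M`.

So one of the numbers is algebraic of degree at most `D` if and only if at every large scale at least
one of the numbers is near. (For `ζ(3)` alone, that is for one number, this is the classical criterion.)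

The proof combines the joint measure of transcendence over `ℚ(e)` for two of the numbers (helper778,
`Pool/Agent/N778/EM`, see `IncompleteZetaMeasure`) with `Pool.Agent.N743.engineR` and the resultant
estimates for two polynomials at the same point.
-/

set_option autoImplicit false

open MeasureTheory Set

namespace Pool.Agent.Results.MP_48b3e2_nt.ScaleDichotomy

open Pool.Agent.N743

/-- `ζ(3) = ∑ 1 / n^3` -/
noncomputable def zetaThree : ℝ := ∑' n : ℕ, 1 / ((n : ℝ) + 1) ^ 3

/-- the points of the positive octant with `max t_j ≥ x` -/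
def rest (x : ℝ) : Set (Fin 3 → ℝ) := {t | (∀ j, 0 < t j) ∧ ∃ j, x ≤ t j}

/-- `R(x)` -/
noncomputable def R (x : ℝ) : ℝ :=
  1 / 12 * ∫ t in rest x, Real.log (t 0 * t 1 / t 2 ^ 2) ^ 3 * Real.exp (-(t 0 + t 1 + t 2))

/-- the numbers: `ζ(3)` and `R(x)` -/
noncomputable def number : Option ℚ → ℝ
  | none => zetaThree
  | some x => R x

theorem rest_eq (x : ℝ) :
    rest x = Pool.Agent.R352.Q.cube 3 (Ioi 0) \ Pool.Agent.R352.Q.cube 3 (Ioo 0 x) := by
  ext t
  simp only [rest, Pool.Agent.R352.Q.cube, mem_sdiff, mem_univ_pi, mem_Ioi, mem_Ioo]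
  constructor
  · rintro ⟨h1, j, h2⟩
    exact ⟨h1, fun h => absurd (h j).2 (not_lt.2 h2)⟩
  · rintro ⟨h1, h2⟩
    push Not at h2
    obtain ⟨j, hj⟩ := h2
    exact ⟨h1, j, hj (h1 j)⟩

theorem R_eq {x : ℝ} (hx : 0 < x) : R x = Pool.Agent.R352.Q.Rk 3 x := by
  rw [R, rest_eq, Pool.Agent.R352.Q.three_rest hx]
  ring

/-- the names in the notation of the general theorem -/
def name : Option ℚ → Fin 1 ⊕ (ℕ × ℚ)
  | none => Sum.inl 0
  | some x => Sum.inr (3, x)

theorem name_injective : Function.Injective name := by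
  intro a b hab
  cases a <;> cases b <;> simp_all [name]

theorem number_eq (o : Option ℚ) (ho : ∀ x, o = some x → 0 < x) :
    Sum.elim (fun _ : Fin 1 => zetaThree) (fun p : ℕ × ℚ => Pool.Agent.R352.Q.Rk p.1 p.2) (name o) = number o := by
  cases o with
  | none => rfl
  | some x =>
    have hx : (0 : ℝ) < x := by exact_mod_cast ho x rfl
    exact (R_eq hx).symm

theorem cond {ι : Type} (b : ι → Option ℚ) (hpos : ∀ i x, b i = some x → 0 < x) (i : ι) (p : ℕ × ℚ)
    (h : name (b i) = Sum.inr p) : 2 ≤ p.1 ∧ 0 < p.2 ∧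
      Pool.Agent.R352.E.zt p.1 ∈ Pool.Agent.R352.E.clF ({Real.exp 1} ∪ range fun _ : Fin 1 => zetaThree) := by
  rcases hb : b i with _ | x
  · rw [hb] at h
    simp [name] at h
  · rw [hb] at h
    simp only [name, Sum.inr.injEq] at h
    subst h
    exact ⟨by norm_num, hpos i x hb, Pool.Agent.R352.E.subset_clF _ (Or.inr ⟨0, rfl⟩)⟩

/-- pairs of the numbers -/
theorem joint_pair (o o' : Option ℚ) (ho : ∀ x, o = some x → 0 < x) (ho' : ∀ x, o' = some x → 0 < x) (hne : o ≠ o') :
    Pool.Agent.R356.JointR (number o) (number o') := by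
  obtain ⟨b, hb⟩ : ∃ b : Bool → Option ℚ, b = fun i => if i then o else o' := ⟨_, rfl⟩
  have hpos : ∀ i x, b i = some x → 0 < x := by
    intro i x h
    rw [hb] at h
    cases i
    · exact ho' x h
    · exact ho x h
  have hinj : Function.Injective b := by
    intro i j hij
    rw [hb] at hij
    cases i <;> cases j
    · rfl
    · exact absurd hij.symm hne
    · exact absurd hij hne
    · rfl
  have h1 := jointFam_zeta (fun _ : Fin 1 => zetaThree) (fun i => name (b i)) (name_injective.comp hinj)
    (fun i p h => cond b hpos i p h) Finset.univ (by simp)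
  have h2 : JointFam ((Real.exp 1 : ℝ) : ℂ) (fun i : Bool => ((if i then number o else number o' : ℝ) : ℂ)) := by
    intro D
    obtain ⟨κ, C, hκ, hC, h3⟩ := h1 D
    refine ⟨κ, C, hκ, hC, fun P hP H hH hPH => ?_⟩
    obtain ⟨i, hi⟩ := h3 (fun i => P i.1) (fun i => hP i.1) H hH (fun i => hPH i.1)
    refine ⟨i.1, hi.trans (le_of_eq ?_)⟩
    have e1 := number_eq (b i.1) (hpos i.1)
    simp only [e1]
    congr 2
    rw [hb]
    cases i.1 <;> rfl
  exact jointR_of_fam h2

/-- **The scale dichotomy.** (1) The first number is `ζ(3)`. (2) Near algebraic numbers of degree at most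
`d`. (3) Near relations over `ℚ(e)`. -/
theorem result :
    ((zetaThree : ℝ) : ℂ) = riemannZeta 3 ∧
    (∀ (ι : Type) [Finite ι] (b : ι → Option ℚ), Function.Injective b → (∀ i x, b i = some x → 0 < x) →
      ∀ (d : ℕ) (M : ℝ), 1 < M → ∃ θ₀ : ℝ, 0 < θ₀ ∧ ∀ θ : ℝ, 0 < θ → θ ≤ θ₀ →
        Dichotomy (fun i => AlgDeg d (number (b i))) (fun X i => AlgNear d θ X (number (b i))) M) ∧
    (∀ (ι : Type) [Finite ι] (b : ι → Option ℚ), Function.Injective b → (∀ i x, b i = some x → 0 < x) →
      ∀ (D : ℕ) (M : ℝ), 1 ≤ D → 1 < M → ∃ θ₀ : ℝ, 0 < θ₀ ∧ ∀ θ : ℝ, 0 < θ → θ ≤ θ₀ →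
        Dichotomy (fun i => Related D ((Real.exp 1 : ℝ) : ℂ) ((number (b i) : ℝ) : ℂ))
          (fun X i => NearRel D θ ((Real.exp 1 : ℝ) : ℂ) ((number (b i) : ℝ) : ℂ) X) M) := by
  refine ⟨?_, ?_, ?_⟩
  · rw [zeta_eq_tsum_one_div_nat_add_one_cpow (by norm_num), zetaThree, Complex.ofReal_tsum]
    refine tsum_congr fun n => ?_
    rw [show (3 : ℂ) = ((3 : ℕ) : ℂ) by norm_num, Complex.cpow_natCast]
    push_cast
    rfl
  · intro ι _ b hb hpos d M hM
    exact dichotomy_alg (fun i => number (b i))
      (fun i j hij => joint_pair (b i) (b j) (hpos i) (hpos j) (fun h => hij (hb h))) d M hM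
  · intro ι _ b hb hpos D M hD hM
    obtain ⟨θ₀, hθ₀, h⟩ := dichotomy_zeta le_rfl (fun _ : Fin 1 => zetaThree) (fun i => name (b i))
      (name_injective.comp hb) (fun i p h => cond b hpos i p h) D hD M hM
    refine ⟨θ₀, hθ₀, fun θ h1 h2 => ?_⟩
    have h3 := (h θ h1 h2).one
    have e : ∀ i, Sum.elim (fun _ : Fin 1 => zetaThree) (fun p : ℕ × ℚ => Pool.Agent.R352.Q.Rk p.1 p.2)
        (name (b i)) = number (b i) := fun i => number_eq (b i) (hpos i)
    simpa only [e] using h3

end Pool.Agent.Results.MP_48b3e2_nt.ScaleDichotomy
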