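import Pool.Agent.N493.SimGap
import Pool.Agent.N493.Sep57

set_option autoImplicit false

/-!
# Simultaneous rational approximation of `ζ(3)` and of arbitrary real numbers

Let `ξ_1, …, ξ_n` be real numbers, for instance values of polynomials at `ζ(3)`, and let
`3.68 (1 - l) < l ^ 2`, for instance `l = 0.8182`. If for every `X ∈ [Y, Z]` some `q ≤ X` satisfies
`‖q ζ(3)‖, ‖q ξ_j‖ ≤ X ^ (-l)`, then all `ξ_j` are close to numbers of `(ℤ + ℤ ζ(3)) / d` with one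
common small denominator `d`; the constants depend neither on the numbers `ξ_j` nor on `n`.
In particular `ζ(3)` is algebraic if and only if for some integer polynomial `P` of degree at least
two `ζ(3)` and `P(ζ(3))` have such approximations for all large `X`; the exponent `0.8182` does not
depend on the degree of `P`. For `ζ(3), ζ(5), ζ(7)` every interval `[Y, Y ^ 2142]` contains an `X`
for which there is no such `q`.
-/

namespace Pool.Agent.Results.MP_48b3e2_nt.SimultaneousZetaThree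

open Pool.Agent.N493 Pool.Agent.N493.Sim Pool.Agent.N493.NRNu Polynomial

/-- `ζ(s) = ∑_{n ≥ 0} 1 / (n + 1) ^ s` -/
noncomputable def zeta (s : ℕ) : ℝ := ∑' n : ℕ, 1 / ((n : ℝ) + 1) ^ s

/-- there is `1 ≤ q ≤ X` with `‖q ζ(3)‖ ≤ X ^ (-l)` and `‖q ξ_j‖ ≤ X ^ (-l)` for all `j` -/
def Good {n : ℕ} (ξ : Fin n → ℝ) (l X : ℝ) : Prop :=
  ∃ q : ℕ, 1 ≤ q ∧ (q : ℝ) ≤ X ∧ (∃ p : ℤ, |(q : ℝ) * zeta 3 - p| ≤ X ^ (-l)) ∧
    ∀ j, ∃ r : ℤ, |(q : ℝ) * ξ j - r| ≤ X ^ (-l)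

/-- the family `ζ(3), ξ_1, …, ξ_n` -/
noncomputable def fam {n : ℕ} (ξ : Fin n → ℝ) (o : Option (Fin n)) : ℝ := o.elim (zeta 3) ξ

theorem good_iff {n : ℕ} (ξ : Fin n → ℝ) (l X : ℝ) : Good ξ l X ↔ Uni (fam ξ) l X := by
  unfold Good Uni
  refine exists_congr fun q => ?_
  rw [Option.forall]
  rfl

theorem fix (l : ℝ) (hl0 : 0 < l) (hl : 3.68 * (1 - l) < l ^ 2) :
    3.68 * ((1 - l) / l) < l ∧ 0.8 < l := by
  constructor
  · rw [← mul_div_assoc, div_lt_iff₀ hl0]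
    nlinarith
  · by_contra h
    push Not at h
    nlinarith

theorem iff_all {n : ℕ} (ξ : Fin n → ℝ) (l : ℝ) (hl0 : 0 < l) (hl : 3.68 * (1 - l) < l ^ 2)
    (hl1 : l < 1) :
    (∀ j, ∃ a b : ℚ, ξ j = a + b * zeta 3) ↔ ∃ Y : ℝ, ∀ X : ℝ, Y ≤ X → Good ξ l X := by
  obtain ⟨c, hc, hNu⟩ := nu_zeta3
  have h := iff_sim (zeta 3) 3.68 c (by norm_num) hc hNu l hl0 hl1 (fix l hl0 hl).1 (fam ξ) none rfl
  simp only [good_iff]
  rw [← h, Option.forall]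
  constructor
  · intro h1
    exact ⟨⟨0, 1, by simp [fam]⟩, h1⟩
  · intro h1
    exact h1.2

/-- a criterion for `ζ(3)` to be algebraic, with an exponent independent of the degree -/
theorem algebraic_iff (l : ℝ) (hl0 : 0 < l) (hl : 3.68 * (1 - l) < l ^ 2) (hl1 : l < 1) :
    IsAlgebraic ℚ (zeta 3) ↔ ∃ P : ℤ[X], 2 ≤ P.natDegree ∧
      ∃ Y : ℝ, ∀ X : ℝ, Y ≤ X → Good ![aeval (zeta 3) P] l X := by
  constructor
  · intro h
    rw [← IsFractionRing.isAlgebraic_iff ℤ ℚ ℝ] at h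
    obtain ⟨Q, hQ0, hQ⟩ := h
    have hdeg : 1 ≤ Q.natDegree := by
      by_contra hlt
      have h0 : Q.natDegree = 0 := by omega
      rw [eq_C_of_natDegree_eq_zero h0] at hQ hQ0
      rw [aeval_C] at hQ
      apply hQ0
      rw [algebraMap_int_eq, eq_intCast] at hQ
      have : Q.coeff 0 = 0 := by exact_mod_cast hQ
      rw [this, C_0]
    refine ⟨Q * X, ?_, ?_⟩
    · rw [natDegree_mul_X hQ0]
      omega
    · refine (iff_all ![aeval (zeta 3) (Q * X)] l hl0 hl hl1).1 fun j => ⟨0, 0, ?_⟩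
      rw [Matrix.cons_val_fin_one, map_mul, hQ]
      simp
  · rintro ⟨P, hP, hY⟩
    obtain ⟨a, b, hab⟩ := (iff_all ![aeval (zeta 3) P] l hl0 hl hl1).2 hY 0
    simp only [Matrix.cons_val_zero] at hab
    refine ⟨P.map (Int.castRingHom ℚ) - (C a + C b * X), ?_, ?_⟩
    · intro h0
      have h1 : P.map (Int.castRingHom ℚ) = C a + C b * X := sub_eq_zero.1 h0
      have h2 : (P.map (Int.castRingHom ℚ)).natDegree = P.natDegree :=
        natDegree_map_eq_of_injective (RingHom.injective_int _) P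
      have h3 : (C a + C b * X : ℚ[X]).natDegree ≤ 1 := by
        rw [add_comm]
        exact natDegree_linear_le
      rw [← h1, h2] at h3
      omega
    · rw [map_sub, map_add, map_mul, aeval_C, aeval_C, aeval_X]
      have : aeval (zeta 3) (P.map (Int.castRingHom ℚ)) = aeval (zeta 3) P :=
        aeval_map_algebraMap ℚ (zeta 3) P
      rw [this, hab]
      simp

/-- no good simultaneous approximations of `ζ(3), ζ(5), ζ(7)` for some `X` in `[Y, Y ^ 2142]` -/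
theorem gap (l : ℝ) (hl0 : 0 < l) (hl : 3.68 * (1 - l) < l ^ 2) :
    ∃ Y₁ : ℝ, ∀ Y : ℝ, Y₁ ≤ Y →
      ∃ X : ℝ, Y ≤ X ∧ X ≤ Y ^ (2142 : ℝ) ∧ ¬ Good ![zeta 5, zeta 7] l X := by
  obtain ⟨c, hc, hNu⟩ := nu_zeta3
  obtain ⟨c', hc', hS⟩ := sep_57
  obtain ⟨l', hl'0, hl'1, hl', hl'l⟩ : ∃ l' : ℝ, 0 < l' ∧ l' ≤ 1 ∧ 3.68 * (1 - l') < l' ^ 2 ∧
      l' ≤ l := by
    by_cases h : l ≤ 1
    · exact ⟨l, hl0, h, hl, le_rfl⟩
    · push Not at h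
      exact ⟨1, one_pos, le_rfl, by norm_num, h.le⟩
  obtain ⟨f1, f2⟩ := fix l' hl'0 hl'
  obtain ⟨Y1, h⟩ := gap_sim (zeta 3) 3.68 c (by norm_num) hc hNu l' 5 1 hl'0 hl'1 f1 (by norm_num)
    (by linarith) (by linarith) (zeta 5) (zeta 7) 2141 c' hc' hS 2142 (by norm_num)
    (by norm_num; linarith) (Option (Fin 2)) (fam ![zeta 5, zeta 7]) none (some 0) (some 1) rfl rfl
    rfl
  refine ⟨max Y1 1, fun Y hY => ?_⟩
  obtain ⟨X, h1, h2, h3⟩ := h Y ((le_max_left _ _).trans hY)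
  refine ⟨X, h1, h2, fun h4 => h3 ?_⟩
  rw [good_iff] at h4
  exact h4.mono _ _ _ _ (((le_max_right _ _).trans hY).trans h1) hl'l

/-- Let `0 < l`, `3.68 (1 - l) < l ^ 2` (for instance `l = 0.8182`). (1) If `l ≤ 1`: good
simultaneous approximations of `ζ(3), ξ_1, …, ξ_n` for all `X ∈ [Y, Z]` give approximate relations
`a_j + b_j ζ(3) + d ξ_j` with a common coefficient `d`; good approximations for all `X ≥ Y` give
exact relations. (2) If `l < 1`: all `ξ_j` lie in `ℚ + ℚ ζ(3)` if and only if there are good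
approximations for all large `X`. (3) If `l < 1`: `ζ(3)` is algebraic if and only if, for some
integer polynomial `P` of degree at least two, `ζ(3)` and `P(ζ(3))` have good approximations for all
large `X`. (4) For `ζ(3)`, `ζ(5)`, `ζ(7)` every interval `[Y, Y ^ 2142]`, `Y` large, contains an `X`
without good approximations. -/
theorem result :
    (∀ l η : ℝ, 0 < l → 3.68 * (1 - l) < l ^ 2 → l ≤ 1 → 3.68 * (1 - l) < η * l →
      (∀ κ : ℝ, 3.68 < κ * l → ∃ Y₀ : ℝ, ∀ (n : ℕ) (ξ : Fin n → ℝ) (Y Z : ℝ),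
        Y₀ ≤ Y → Y ^ κ ≤ Z → (∀ X : ℝ, Y ≤ X → X ≤ Z → Good ξ l X) →
        ∃ d : ℤ, d ≠ 0 ∧ |(d : ℝ)| ≤ Y ^ η ∧ ∀ j, ∃ a b : ℤ, |(b : ℝ)| ≤ Y ^ η ∧
          |(a : ℝ) + b * zeta 3 + d * ξ j| ≤ Y ^ η * Z ^ (-(l + l / 3.68))) ∧
      (∃ Y₀ : ℝ, ∀ (n : ℕ) (ξ : Fin n → ℝ) (Y : ℝ), Y₀ ≤ Y → (∀ X : ℝ, Y ≤ X → Good ξ l X) →
        ∃ d : ℤ, d ≠ 0 ∧ |(d : ℝ)| ≤ Y ^ η ∧ ∀ j, ∃ a b : ℤ, |(b : ℝ)| ≤ Y ^ η ∧
          (a : ℝ) + b * zeta 3 + d * ξ j = 0)) ∧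
    (∀ l : ℝ, 0 < l → 3.68 * (1 - l) < l ^ 2 → l < 1 →
      (∀ (n : ℕ) (ξ : Fin n → ℝ),
        (∀ j, ∃ a b : ℚ, ξ j = a + b * zeta 3) ↔ ∃ Y : ℝ, ∀ X : ℝ, Y ≤ X → Good ξ l X) ∧
      (IsAlgebraic ℚ (zeta 3) ↔ ∃ P : ℤ[X], 2 ≤ P.natDegree ∧
        ∃ Y : ℝ, ∀ X : ℝ, Y ≤ X → Good ![aeval (zeta 3) P] l X)) ∧
    (∀ l : ℝ, 0 < l → 3.68 * (1 - l) < l ^ 2 → ∃ Y₁ : ℝ, ∀ Y : ℝ, Y₁ ≤ Y →
      ∃ X : ℝ, Y ≤ X ∧ X ≤ Y ^ (2142 : ℝ) ∧ ¬ Good ![zeta 5, zeta 7] l X) := by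
  refine ⟨fun l η hl0 hl hl1 hη => ?_, fun l hl0 hl hl1 =>
    ⟨fun n ξ => iff_all ξ l hl0 hl hl1, algebraic_iff l hl0 hl hl1⟩, gap⟩
  obtain ⟨c, hc, hNu⟩ := nu_zeta3
  obtain ⟨f1, f2⟩ := fix l hl0 hl
  have hη' : 3.68 * ((1 - l) / l) < η := by
    rw [← mul_div_assoc, div_lt_iff₀ hl0]
    exact hη
  refine ⟨fun κ hκ => ?_, ?_⟩
  · have hκ1 : 1 ≤ κ := by
      by_contra h
      push Not at h
      nlinarith
    obtain ⟨Y0, -, h⟩ := local_sim (zeta 3) 3.68 c (by norm_num) hc hNu l κ η hl0 hl1 f1 hκ1 hκ hη'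
    refine ⟨Y0, fun n ξ Y Z hY hZ hU => ?_⟩
    obtain ⟨d, hd0, hd1, hd2⟩ := h (Option (Fin n)) (fam ξ) none rfl Y Z hY hZ
      fun X h1 h2 => (good_iff ξ l X).1 (hU X h1 h2)
    exact ⟨d, hd0, hd1, fun j => hd2 (some j)⟩
  · obtain ⟨Y0, -, h⟩ := exact_sim (zeta 3) 3.68 c (by norm_num) hc hNu l η hl0 hl1 f1 hη'
    refine ⟨Y0, fun n ξ Y hY hU => ?_⟩
    obtain ⟨d, hd0, hd1, hd2⟩ := h (Option (Fin n)) (fam ξ) none rfl Y hY
      fun X h1 => (good_iff ξ l X).1 (hU X h1)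
    exact ⟨d, hd0, hd1, fun j => hd2 (some j)⟩

end Pool.Agent.Results.MP_48b3e2_nt.SimultaneousZetaThree
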