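import Mathlib
import Pool.Agent.N778.AF.Tri

set_option autoImplicit false

/-!
# `π`, `ζ(3)` and incomplete zeta integrals, scale by scale

For an integer `k ≥ 2` let `ω = exp (2 π i / k)`. For a rational number `x ≥ 0` let `R_k(x)` be the integral
`(-1)^k / k! * ∫ (∑_j ω^j log t_j)^k exp (-∑_j t_j) dt` over the part `(0, ∞)^k \ (0, x)^k` of the octant.

(1) `R_k(x)` is real, `R_k(0) = ζ(k)`.

The names are `pi`, `zetaThree` and `tail k x`, where `k = 3` or `k ≥ 2` is even and `x > 0` is rational, with the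
values `π`, `ζ(3)` and `R_k(x)`. Let `t` and `N` be disjoint finite sets of names.

(2) Let `t` have at least two elements. For every `D` there are `κ` and `c > 0` such that for all `H ≥ 1` and
all nonzero integral polynomials `Q_i(X, Y)` (`i ∈ t`), `P(Y, (X_j))` (`j ∈ N`) of degree at most `D` and with
coefficients at most `H` in absolute value, `|Q_i(v_i, e)| ≥ c / H ^ κ` for some `i`, or
`|P(e, (v_j))| ≥ c / H ^ κ`.

(3) Let `t` be nonempty and let `π`, `ζ(3)` not belong to `t` and `N`. For every `D` there are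
`κ` and `c > 0` such that for all `H ≥ 1` and all nonzero integral polynomials `F` (in three variables),
`Q_i`, `P` of degree at most `D` and with coefficients at most `H` in absolute value
`|F(e, π, ζ(3))| ≥ c / H ^ κ` or `|Q_i(v_i, e)| ≥ c / H ^ κ` for some `i`, or `|P(e, (v_j))| ≥ c / H ^ κ`.
So at each scale `H` at which `e`, `π`, `ζ(3)` satisfy a relation approximately (for example if `ζ(3)` is near an
algebraic number or `ζ(3) / π³` near a rational number) and some `R_k(x)` is near a number algebraic over `ℚ(e)`,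
the other numbers `R_k(x)` and `e` do not satisfy any relation approximately.

(4) Let `e`, `π`, `ζ(3)` be algebraically dependent over `ℚ` (for example `ζ(3)` algebraic), let `N` be a finite set of
names `tail k x` and `i` a name `tail k x` not in `N`. If `R_i` is algebraic over `ℚ(e)` or a Liouville number, then
`e` and the `R_j`, `j ∈ N`, are algebraically independent over `ℚ`.
-/

namespace Pool.Agent.Results.MP_48b3e2_nt.ZetaThreePiScales

open Set MeasureTheory

/-- the zeta value `ζ(s) = ∑ 1 / n^s` -/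
noncomputable def zeta (s : ℕ) : ℝ := ∑' n : ℕ, 1 / ((n : ℝ) + 1) ^ s

/-- `ω = exp (2 π i / k)` -/
noncomputable def root (k : ℕ) : ℂ := Complex.exp (2 * Real.pi * Complex.I / k)

/-- `(∑_j ω^j log t_j)^k exp (-∑_j t_j)` -/
noncomputable def integrand (k : ℕ) (t : Fin k → ℝ) : ℂ :=
  (∑ j : Fin k, root k ^ (j : ℕ) * (Real.log (t j) : ℂ)) ^ k * ((Real.exp (-∑ j, t j) : ℝ) : ℂ)

/-- `(0, ∞)^k \ (0, x)^k` -/
def rest (k : ℕ) (x : ℝ) : Set (Fin k → ℝ) := {t | (∀ j, 0 < t j) ∧ ∃ j, x ≤ t j}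

/-- `R_k(x)`, as a complex number -/
noncomputable def tailIntegral (k : ℕ) (x : ℚ) : ℂ := (-1) ^ k / k.factorial * ∫ t in rest k x, integrand k t

/-- `R_k(x)`, as a real number -/
noncomputable def R (k : ℕ) (x : ℚ) : ℝ := (tailIntegral k x).re

/-- the number `z` is algebraic over the field `ℚ(e)` -/
def AlgebraicOverE (z : ℝ) : Prop := IsAlgebraic (IntermediateField.adjoin ℚ {Real.exp 1}) z

/-- the names of the numbers -/
inductive Name : Type
  /-- `π` -/
  | pi : Name
  /-- `ζ(3)` -/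
  | zetaThree : Name
  /-- `R_k(x)` -/
  | tail (k : ℕ) (x : ℚ) : Name

/-- the numbers -/
noncomputable def value : Name → ℝ
  | .pi => Real.pi
  | .zetaThree => zeta 3
  | .tail k x => R k x

/-- the names that are considered: `k = 3` or `k ≥ 2` is even, `x > 0` -/
def Valid : Name → Prop
  | .pi => True
  | .zetaThree => True
  | .tail k x => (k = 3 ∨ (2 ≤ k ∧ Even k)) ∧ 0 < x

/-- the name is of the form `tail k x` -/
def IsTail : Name → Prop
  | .tail _ _ => True
  | _ => False

/-- the height of the polynomial `P` is at most `H` -/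
def HeightLE {σ : Type} (P : MvPolynomial σ ℤ) (H : ℝ) : Prop := ∀ s, |((P.coeff s : ℤ) : ℝ)| ≤ H

/-- For every `D` there are `κ` and `c > 0` such that for all nonzero integral polynomials `Q_i(X, Y)` and `P(Y, (X_j))`
of degree at most `D` and height at most `H`, `H ≥ 1`, one of the numbers `Q_i(v_i, e)`, `P(e, (u_j))` is at least
`c / H ^ κ` in absolute value. -/
def Dichotomy {ι ι' : Type} (v : ι → ℝ) (u : ι' → ℝ) : Prop :=
  ∀ D : ℕ, ∃ κ : ℕ, ∃ c : ℝ, 0 < c ∧ ∀ (Q : ι → MvPolynomial (Fin 2) ℤ) (P : MvPolynomial (Option ι') ℤ),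
    (∀ i, Q i ≠ 0) → P ≠ 0 → (∀ i, (Q i).totalDegree ≤ D) → P.totalDegree ≤ D → ∀ H : ℝ, 1 ≤ H →
    (∀ i, HeightLE (Q i) H) → HeightLE P H →
      (∃ i, c / H ^ κ ≤ |MvPolynomial.aeval ![v i, Real.exp 1] (Q i)|) ∨
        c / H ^ κ ≤ |MvPolynomial.aeval (fun o : Option ι' => o.elim (Real.exp 1) u) P|

/-- The same with a third possibility: `|F(e, (y_l))| ≥ c / H ^ κ`. -/
def Trichotomy {ι₀ ι ι' : Type} (y : ι₀ → ℝ) (v : ι → ℝ) (u : ι' → ℝ) : Prop :=
  ∀ D : ℕ, ∃ κ : ℕ, ∃ c : ℝ, 0 < c ∧ ∀ (F : MvPolynomial (Option ι₀) ℤ) (Q : ι → MvPolynomial (Fin 2) ℤ)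
    (P : MvPolynomial (Option ι') ℤ), F ≠ 0 → (∀ i, Q i ≠ 0) → P ≠ 0 → F.totalDegree ≤ D →
    (∀ i, (Q i).totalDegree ≤ D) → P.totalDegree ≤ D → ∀ H : ℝ, 1 ≤ H → HeightLE F H →
    (∀ i, HeightLE (Q i) H) → HeightLE P H →
      c / H ^ κ ≤ |MvPolynomial.aeval (fun o : Option ι₀ => o.elim (Real.exp 1) y) F| ∨
      (∃ i, c / H ^ κ ≤ |MvPolynomial.aeval ![v i, Real.exp 1] (Q i)|) ∨
        c / H ^ κ ≤ |MvPolynomial.aeval (fun o : Option ι' => o.elim (Real.exp 1) u) P|

open Pool.Agent.N778.AF (Dx Dy UN ZN zeta_dich1 zeta_dich2)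
open Pool.Agent.R352.E (clF mem_clF subset_clF)

theorem rest_eq (k : ℕ) (x : ℝ) :
    rest k x = Pool.Agent.R352.Q.cube k (Ioi 0) \ Pool.Agent.R352.Q.cube k (Ioo 0 x) := by
  ext t
  simp only [rest, Pool.Agent.R352.Q.cube, mem_sdiff, mem_univ_pi, mem_Ioi, mem_Ioo]
  constructor
  · rintro ⟨h1, j, h2⟩
    exact ⟨h1, fun h => absurd (h j).2 (not_lt.2 h2)⟩
  · rintro ⟨h1, h2⟩
    push Not at h2
    obtain ⟨j, hj⟩ := h2
    exact ⟨h1, j, hj (h1 j)⟩

theorem tailIntegral_eq {k : ℕ} (hk : 2 ≤ k) {x : ℚ} (hx : 0 < x) :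
    tailIntegral k x = (Pool.Agent.R352.Q.Rk k x : ℂ) := by
  have hx' : (0 : ℝ) < x := by exact_mod_cast hx
  have h : tailIntegral k x = Pool.Agent.R352.Q.NI k
      (Pool.Agent.R352.Q.cube k (Ioi 0) \ Pool.Agent.R352.Q.cube k (Ioo 0 x)) := by
    rw [tailIntegral, rest_eq]
    rfl
  rw [h, Pool.Agent.R352.Q.NI_diff, Pool.Agent.R352.Q.NI_full hk, Pool.Agent.R352.Q.NI_box hk hx',
    Pool.Agent.R352.Q.Rk]
  push_cast
  rfl

theorem tailIntegral_zero {k : ℕ} (hk : 2 ≤ k) : tailIntegral k 0 = (zeta k : ℂ) := by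
  have h1 : rest k ((0 : ℚ) : ℝ) = Pool.Agent.R352.Q.cube k (Ioi 0) := by
    ext t
    simp only [rest, Pool.Agent.R352.Q.cube, mem_univ_pi, mem_Ioi, Rat.cast_zero]
    constructor
    · rintro ⟨h1, -⟩
      exact h1
    · intro h
      exact ⟨h, ⟨0, by omega⟩, (h _).le⟩
  have h2 : tailIntegral k 0 = Pool.Agent.R352.Q.NI k (Pool.Agent.R352.Q.cube k (Ioi 0)) := by
    rw [tailIntegral, h1]
    rfl
  rw [h2, Pool.Agent.R352.Q.NI_full hk]
  rfl

theorem R_eq {k : ℕ} (hk : 2 ≤ k) {x : ℚ} (hx : 0 < x) : R k x = Pool.Agent.R352.Q.Rk k x := by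
  rw [R, tailIntegral_eq hk hx, Complex.ofReal_re]

/-- the exponents -/
def KK : Set ℕ := {k | k = 3 ∨ (2 ≤ k ∧ Even k)}

/-- the constants -/
noncomputable def yy : Fin 2 → ℝ := ![Real.pi, zeta 3]

theorem KK_mem (k : ℕ) (hk : k ∈ KK) : 2 ≤ k ∧ Pool.Agent.R352.E.zt k ∈ clF ({Real.exp 1} ∪ range yy) := by
  have hpi : Real.pi ∈ clF ({Real.exp 1} ∪ range yy) := subset_clF _ (Or.inr ⟨0, rfl⟩)
  rcases hk with rfl | ⟨h2, h3⟩
  · exact ⟨by norm_num, subset_clF _ (Or.inr ⟨1, rfl⟩)⟩
  · obtain ⟨j, rfl⟩ := h3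
    refine ⟨h2, ?_⟩
    have h4 := Pool.Agent.R352.E.zt_even hpi j (by omega)
    rw [← two_mul]
    exact h4

/-- the translation of the names -/
noncomputable def enc (S : Finset Name) (hS : ∀ i ∈ S, Valid i) (i : S) : Fin 2 ⊕ ZN KK :=
  match i with
  | ⟨.pi, _⟩ => Sum.inl 0
  | ⟨.zetaThree, _⟩ => Sum.inl 1
  | ⟨.tail k x, h⟩ => Sum.inr ⟨(k, x), (hS _ h).1, (hS _ h).2⟩

theorem enc_injective (S : Finset Name) (hS : ∀ i ∈ S, Valid i) : Function.Injective (enc S hS) := by
  rintro ⟨i, hi⟩ ⟨j, hj⟩ h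
  cases i <;> cases j <;> simp_all [enc]

theorem enc_value (S : Finset Name) (hS : ∀ i ∈ S, Valid i) (i : S) :
    Sum.elim yy (fun p : ZN KK => Pool.Agent.R352.Q.Rk p.1.1 p.1.2) (enc S hS i) = value i := by
  obtain ⟨i, hi⟩ := i
  cases i with
  | pi => rfl
  | zetaThree => rfl
  | tail k x => exact (R_eq (KK_mem _ (hS _ hi).1).1 (hS _ hi).2).symm

theorem first {t N : Finset Name} (hd : Disjoint t N) (h' : ∀ i, i ∈ t ∨ i ∈ N → Valid i) (hcard : 2 ≤ t.card) :
    Dx (fun i : t => value i) (fun j : N => value j) := by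
  classical
  have h : ∀ i ∈ t ∪ N, Valid i := fun i hi => h' i (Finset.mem_union.1 hi)
  let f := enc (t ∪ N) h
  have hf : Function.Injective f := enc_injective _ _
  let it : t → (t ∪ N : Finset Name) := fun p => ⟨p.1, Finset.mem_union_left _ p.2⟩
  let iN : N → (t ∪ N : Finset Name) := fun p => ⟨p.1, Finset.mem_union_right _ p.2⟩
  have hit : Function.Injective it := fun a b h => Subtype.ext (congrArg (fun z : (t ∪ N : Finset Name) => z.1) h)
  have hiN : Function.Injective iN := fun a b h => Subtype.ext (congrArg (fun z : (t ∪ N : Finset Name) => z.1) h)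
  let t' : Finset (Fin 2 ⊕ ZN KK) := Finset.univ.image fun p : t => f (it p)
  let N' : Finset (Fin 2 ⊕ ZN KK) := Finset.univ.image fun p : N => f (iN p)
  have ht'card : t'.card = t.card := by
    show (Finset.univ.image (f ∘ it)).card = t.card
    rw [Finset.card_image_of_injective _ (hf.comp hit), Finset.card_univ, Fintype.card_coe]
  have hd' : Disjoint t' N' := by
    rw [Finset.disjoint_left]
    intro x hx hx'
    obtain ⟨p, -, rfl⟩ := Finset.mem_image.1 hx
    obtain ⟨q, -, hqp⟩ := Finset.mem_image.1 hx'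
    have h1 : iN q = it p := hf hqp
    have h2 : q.1 = p.1 := congrArg (fun z : (t ∪ N : Finset Name) => z.1) h1
    exact Finset.disjoint_left.1 hd p.2 (h2 ▸ q.2)
  have key := zeta_dich1 KK_mem t' N' (by rw [ht'card]; exact hcard) hd'
  refine key.mono (fun i => (Finset.mem_image.1 i.2).choose) (fun i => ?_)
    (fun p : N => (⟨f (iN p), Finset.mem_image_of_mem _ (Finset.mem_univ _)⟩ : N')) ?_ (fun p => enc_value _ h _)
  · have h1 := (Finset.mem_image.1 i.2).choose_spec.2
    have h2 := enc_value _ h (it (Finset.mem_image.1 i.2).choose)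
    have h3 : enc (t ∪ N) h (it (Finset.mem_image.1 i.2).choose) = i.1 := h1
    rw [h3] at h2
    exact h2.symm
  · intro a b hab
    exact hiN (hf (congrArg Subtype.val hab))

/-- the translation of the names of the integrals -/
noncomputable def enc2 (S : Finset Name) (hS : ∀ i ∈ S, Valid i ∧ IsTail i) (i : S) : ZN KK :=
  match i with
  | ⟨.pi, h⟩ => absurd (hS _ h).2 id
  | ⟨.zetaThree, h⟩ => absurd (hS _ h).2 id
  | ⟨.tail k x, h⟩ => ⟨(k, x), (hS _ h).1.1, (hS _ h).1.2⟩

theorem enc2_injective (S : Finset Name) (hS : ∀ i ∈ S, Valid i ∧ IsTail i) : Function.Injective (enc2 S hS) := by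
  rintro ⟨i, hi⟩ ⟨j, hj⟩ h
  cases i with
  | pi => exact absurd (hS _ hi).2 id
  | zetaThree => exact absurd (hS _ hi).2 id
  | tail k x =>
    cases j with
    | pi => exact absurd (hS _ hj).2 id
    | zetaThree => exact absurd (hS _ hj).2 id
    | tail k' x' => simp_all [enc2]

theorem enc2_value (S : Finset Name) (hS : ∀ i ∈ S, Valid i ∧ IsTail i) (i : S) :
    Pool.Agent.R352.Q.Rk (enc2 S hS i).1.1 (enc2 S hS i).1.2 = value i := by
  obtain ⟨i, hi⟩ := i
  cases i with
  | pi => exact absurd (hS _ hi).2 id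
  | zetaThree => exact absurd (hS _ hi).2 id
  | tail k x => exact (R_eq (KK_mem _ (hS _ hi).1.1).1 (hS _ hi).1.2).symm

theorem second {t N : Finset Name} (hd : Disjoint t N) (h' : ∀ i, i ∈ t ∨ i ∈ N → Valid i ∧ IsTail i)
    (hcard : 1 ≤ t.card) : Dy yy (fun i : t => value i) (fun j : N => value j) := by
  classical
  have h : ∀ i ∈ t ∪ N, Valid i ∧ IsTail i := fun i hi => h' i (Finset.mem_union.1 hi)
  let f := enc2 (t ∪ N) h
  have hf : Function.Injective f := enc2_injective _ _
  let it : t → (t ∪ N : Finset Name) := fun p => ⟨p.1, Finset.mem_union_left _ p.2⟩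
  let iN : N → (t ∪ N : Finset Name) := fun p => ⟨p.1, Finset.mem_union_right _ p.2⟩
  have hit : Function.Injective it := fun a b h => Subtype.ext (congrArg (fun z : (t ∪ N : Finset Name) => z.1) h)
  have hiN : Function.Injective iN := fun a b h => Subtype.ext (congrArg (fun z : (t ∪ N : Finset Name) => z.1) h)
  let t' : Finset (ZN KK) := Finset.univ.image fun p : t => f (it p)
  let N' : Finset (ZN KK) := Finset.univ.image fun p : N => f (iN p)
  have ht'card : t'.card = t.card := by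
    show (Finset.univ.image (f ∘ it)).card = t.card
    rw [Finset.card_image_of_injective _ (hf.comp hit), Finset.card_univ, Fintype.card_coe]
  have hd' : Disjoint t' N' := by
    rw [Finset.disjoint_left]
    intro x hx hx'
    obtain ⟨p, -, rfl⟩ := Finset.mem_image.1 hx
    obtain ⟨q, -, hqp⟩ := Finset.mem_image.1 hx'
    have h1 : iN q = it p := hf hqp
    have h2 : q.1 = p.1 := congrArg (fun z : (t ∪ N : Finset Name) => z.1) h1
    exact Finset.disjoint_left.1 hd p.2 (h2 ▸ q.2)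
  have key := zeta_dich2 KK_mem t' N' (by rw [ht'card]; omega) hd'
  refine key.mono id Function.injective_id (fun _ => rfl) (fun i => (Finset.mem_image.1 i.2).choose) (fun i => ?_)
    (fun p : N => (⟨f (iN p), Finset.mem_image_of_mem _ (Finset.mem_univ _)⟩ : N')) ?_ (fun p => enc2_value _ h _)
  · have h1 := (Finset.mem_image.1 i.2).choose_spec.2
    have h2 := enc2_value _ h (it (Finset.mem_image.1 i.2).choose)
    have h3 : enc2 (t ∪ N) h (it (Finset.mem_image.1 i.2).choose) = i.1 := h1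
    rw [h3] at h2
    exact h2.symm
  · intro a b hab
    exact hiN (hf (congrArg Subtype.val hab))

theorem un {t : ℝ} (h : AlgebraicOverE t ∨ Liouville t) : UN t := by
  rcases h with h | h
  · exact Pool.Agent.N778.AF.UN_of_alg (mem_clF.2 h)
  · exact Pool.Agent.N778.AF.UN_of_liouville' h

theorem result :
    -- (1)
    (∀ k : ℕ, 2 ≤ k → (∀ x : ℚ, 0 ≤ x → tailIntegral k x = (R k x : ℂ)) ∧ R k 0 = zeta k) ∧
    -- (2)
    (∀ t N : Finset Name, Disjoint t N → (∀ i, i ∈ t ∨ i ∈ N → Valid i) → 2 ≤ t.card →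
      Dichotomy (fun i : t => value i) (fun j : N => value j)) ∧
    -- (3)
    (∀ t N : Finset Name, Disjoint t N → (∀ i, i ∈ t ∨ i ∈ N → Valid i ∧ IsTail i) → 1 ≤ t.card →
      Trichotomy ![Real.pi, zeta 3] (fun i : t => value i) (fun j : N => value j)) ∧
    -- (4)
    (¬ AlgebraicIndependent ℚ (![Real.exp 1, Real.pi, zeta 3] : Fin 3 → ℝ) →
      ∀ (i : Name) (N : Finset Name), i ∉ N → (∀ j, j = i ∨ j ∈ N → Valid j ∧ IsTail j) →
        (AlgebraicOverE (value i) ∨ Liouville (value i)) →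
          AlgebraicIndependent ℚ (fun o : Option N => o.elim (Real.exp 1) (fun j => value j))) := by
  have h0 : ∀ k : ℕ, 2 ≤ k → R k 0 = zeta k := by
    intro k hk
    rw [R, tailIntegral_zero hk, Complex.ofReal_re]
  refine ⟨fun k hk => ⟨fun x hx => ?_, h0 k hk⟩, fun t N hd h hcard => first hd h hcard,
    fun t N hd h hcard => second hd h hcard, fun hdep i N hi h hval => ?_⟩
  · rcases hx.eq_or_lt with hx0 | hx0
    · rw [← hx0, h0 k hk, tailIntegral_zero hk]
    · rw [R, tailIntegral_eq hk hx0, Complex.ofReal_re]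
  · classical
    have key := second (t := {i}) (N := N) (Finset.disjoint_singleton_left.2 hi) (fun j hj => by
      rcases hj with hj | hj
      · exact h j (Or.inl (Finset.mem_singleton.1 hj))
      · exact h j (Or.inr hj)) (by simp)
    have key2 : Dy yy (fun _ : Unit => value i) (fun j : N => value j) :=
      key.mono id Function.injective_id (fun _ => rfl) (fun _ => ()) (fun j => by
        rw [Finset.mem_singleton.1 j.2]) id Function.injective_id (fun _ => rfl)
    refine key2.indep (fun hind => hdep ?_) (un hval)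
    have h1 := hind.comp (fun j : Fin 3 => (![none, some 0, some 1] : Fin 3 → Option (Fin 2)) j) (by
      intro a b hab
      fin_cases a <;> fin_cases b <;> simp_all)
    convert h1 using 1
    funext j
    fin_cases j <;> rfl

end Pool.Agent.Results.MP_48b3e2_nt.ZetaThreePiScales
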